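import Mathlib
import Pool.Agent.U171.Integral.Core

/-!
A non-abelian variety of groups in which every group has an integral (is a derived subgroup):
for every odd prime `p`, the variety of groups of exponent dividing `p` and class at most two.
-/

open scoped commutatorElement

namespace Pool.Agent.Results.MP_fbf3cb_al.OddExponentClassTwo

universe u

/-- `G` belongs to the variety of groups defined by the set `W` of laws (a law `w = 1` is a word
`w` of the free group on countably many letters; it must vanish under every substitution). -/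
def InVariety (W : Set (FreeGroup ℕ)) (G : Type u) [Group G] : Prop :=
  ∀ w ∈ W, ∀ f : ℕ → G, FreeGroup.lift f w = 1

/-- `G` has an integral: it is isomorphic to the derived subgroup of some group. -/
def HasIntegral (G : Type u) [Group G] : Prop :=
  ∃ (H : Type u) (_ : Group H), Nonempty (commutator H ≃* G)

/-- The laws `x^p = 1` and `[[x,y],z] = 1`. -/
def laws (p : ℕ) : Set (FreeGroup ℕ) :=
  {FreeGroup.of 0 ^ p, ⁅⁅FreeGroup.of 0, FreeGroup.of 1⁆, FreeGroup.of 2⁆}

theorem inVariety_iff (p : ℕ) (G : Type u) [Group G] :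
    InVariety (laws p) G ↔ (∀ x : G, x ^ p = 1) ∧ ∀ x y z : G, ⁅⁅x, y⁆, z⁆ = 1 := by
  unfold InVariety laws
  constructor
  · intro h
    refine ⟨fun x => ?_, fun x y z => ?_⟩
    · have := h _ (Set.mem_insert _ _) (fun _ => x)
      rwa [map_pow, FreeGroup.lift_apply_of] at this
    · have := h _ (Set.mem_insert_of_mem _ rfl) (fun n => if n = 0 then x else if n = 1 then y else z)
      rw [map_commutatorElement, map_commutatorElement, FreeGroup.lift_apply_of,
        FreeGroup.lift_apply_of, FreeGroup.lift_apply_of] at this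
      simpa using this
  · rintro ⟨h1, h2⟩ w hw f
    rcases hw with rfl | hw
    · rw [map_pow, h1]
    · rw [Set.mem_singleton_iff] at hw
      rw [hw, map_commutatorElement, map_commutatorElement, h2]

/-- the Heisenberg group over `ℤ/p` -/
@[ext] structure Heis (p : ℕ) where
  /-- first coordinate -/
  a : ZMod p
  /-- second coordinate -/
  b : ZMod p
  /-- central coordinate -/
  c : ZMod p

namespace Heis

variable {p : ℕ}

instance : Mul (Heis p) := ⟨fun x y => ⟨x.a + y.a, x.b + y.b, x.c + y.c + x.a * y.b⟩⟩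
instance : One (Heis p) := ⟨⟨0, 0, 0⟩⟩
instance : Inv (Heis p) := ⟨fun x => ⟨-x.a, -x.b, -x.c + x.a * x.b⟩⟩

@[simp] theorem mul_a (x y : Heis p) : (x * y).a = x.a + y.a := rfl
@[simp] theorem mul_b (x y : Heis p) : (x * y).b = x.b + y.b := rfl
@[simp] theorem mul_c (x y : Heis p) : (x * y).c = x.c + y.c + x.a * y.b := rfl
@[simp] theorem one_a : (1 : Heis p).a = 0 := rfl
@[simp] theorem one_b : (1 : Heis p).b = 0 := rfl
@[simp] theorem one_c : (1 : Heis p).c = 0 := rfl
@[simp] theorem inv_a (x : Heis p) : (x⁻¹).a = -x.a := rfl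
@[simp] theorem inv_b (x : Heis p) : (x⁻¹).b = -x.b := rfl
@[simp] theorem inv_c (x : Heis p) : (x⁻¹).c = -x.c + x.a * x.b := rfl

instance : Group (Heis p) :=
  Group.ofLeftAxioms
    (by intro x y z; ext <;> simp <;> ring)
    (by intro x; ext <;> simp)
    (by intro x; ext <;> simp)

theorem pow_coord (x : Heis p) (n : ℕ) : (x ^ n).a = n * x.a ∧ (x ^ n).b = n * x.b ∧
    2 * (x ^ n).c = 2 * n * x.c + n * (n - 1) * (x.a * x.b) := by
  induction n with
  | zero => simp
  | succ n ih =>
    obtain ⟨h1, h2, h3⟩ := ih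
    rw [pow_succ]
    refine ⟨?_, ?_, ?_⟩
    · rw [mul_a, h1]; push_cast; ring
    · rw [mul_b, h2]; push_cast; ring
    · rw [mul_c, h1, mul_add, mul_add, h3]; push_cast; ring

theorem pow_p (hp : p.Prime) (h2 : p ≠ 2) (x : Heis p) : x ^ p = 1 := by
  have : Fact p.Prime := ⟨hp⟩
  obtain ⟨h1, h3, h4⟩ := pow_coord x p
  have e2 : (2 : ZMod p) ≠ 0 := by
    intro h
    have h' : ((2 : ℕ) : ZMod p) = 0 := by exact_mod_cast h
    rw [ZMod.natCast_eq_zero_iff] at h'
    exact h2 ((Nat.prime_dvd_prime_iff_eq hp Nat.prime_two).1 h')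
  ext
  · rw [h1]; simp
  · rw [h3]; simp
  · have : 2 * (x ^ p).c = 0 := by rw [h4]; simp
    simpa [e2] using this

theorem class_two (x y z : Heis p) : ⁅⁅x, y⁆, z⁆ = 1 := by
  rw [commutatorElement_eq_one_iff_mul_comm, commutatorElement_def]
  ext <;> simp <;> ring

end Heis

theorem nonabelian_mem (p : ℕ) (hp : p.Prime) (h2 : p ≠ 2) :
    ∃ (G : Type u) (_ : Group G), InVariety (laws p) G ∧ ∃ a b : G, a * b ≠ b * a := by
  have : Fact p.Prime := ⟨hp⟩
  refine ⟨ULift.{u} (Heis p), inferInstance, ?_, ?_⟩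
  · rw [inVariety_iff]
    constructor
    · rintro ⟨x⟩
      apply ULift.down_injective
      exact Heis.pow_p hp h2 x
    · rintro ⟨x⟩ ⟨y⟩ ⟨z⟩
      apply ULift.down_injective
      exact Heis.class_two x y z
  · refine ⟨⟨⟨1, 0, 0⟩⟩, ⟨⟨0, 1, 0⟩⟩, ?_⟩
    intro h
    have h' := congrArg (fun t => (ULift.down t).c) h
    change (0 : ZMod p) + 0 + 1 * 1 = 0 + 0 + 0 * 0 at h'
    simp at h'

/-- Q1 has the answer YES.  There is a set of laws `W` whose variety contains a non-abelian group
and all of whose groups have an integral; indeed for every odd prime `p` the variety of all groups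
of exponent dividing `p` and class at most two has this property. -/
theorem result :
    (∃ W : Set (FreeGroup ℕ),
      (∃ (G : Type u) (_ : Group G), InVariety W G ∧ ∃ a b : G, a * b ≠ b * a) ∧
      ∀ (G : Type u) [Group G], InVariety W G → HasIntegral G) ∧
    (∀ p : ℕ, p.Prime → p ≠ 2 →
      (∃ (G : Type u) (_ : Group G), InVariety (laws p) G ∧ ∃ a b : G, a * b ≠ b * a) ∧
      ∀ (G : Type u) [Group G], InVariety (laws p) G → HasIntegral G) := by
  have key : ∀ p : ℕ, p.Prime → p ≠ 2 →
      (∃ (G : Type u) (_ : Group G), InVariety (laws p) G ∧ ∃ a b : G, a * b ≠ b * a) ∧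
      ∀ (G : Type u) [Group G], InVariety (laws p) G → HasIntegral G := by
    intro p hp h2
    refine ⟨nonabelian_mem p hp h2, ?_⟩
    intro G _ hG
    rw [inVariety_iff] at hG
    exact Pool.Agent.U171.Integral.integrable hG.2 p hp h2 hG.1
  exact ⟨⟨laws 3, key 3 Nat.prime_three (by norm_num)⟩, key⟩

end Pool.Agent.Results.MP_fbf3cb_al.OddExponentClassTwo
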